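import Pool.Agent.Lib.MP_33b3f9_ag.M8.F.Lat
import Pool.Agent.Lib.MP_33b3f9_ag.M8.MorA

/-!
A basis over the quaternion algebra.
-/

set_option autoImplicit false

noncomputable section

namespace M8.F

open Matrix M4 M4.F

variable {a b : MZ} {m n : ℕ} {τ : Mat}

/-- The standard basis of the quaternion algebra. -/
def dd (a b : MZ) : Fin 4 → MZ := ![1, a, b, a * b]

/-- The four vectors are a basis over the quaternion algebra, with dual basis `w`. -/
structure Ok [Bs] (a b : MZ) : Prop where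
  dual : ∀ k l, Bs.w k * (dd a b l * Bs.v) = if k = l then (Bs.c : ℤ) • 1 else 0
  span : ∑ k, dd a b k * Bs.v * Bs.w k = (Bs.c : ℤ) • 1

theorem flip_smul {α β : Type} [Fintype α] [Fintype β] [DecidableEq α] [DecidableEq β]
    (e : Fintype.card α = Fintype.card β) {A : Matrix α β ℤ} {B : Matrix β α ℤ} {c : ℤ} (hc : c ≠ 0)
    (h : A * B = c • 1) : B * A = c • 1 := by
  have h0 : (c : ℚ) ≠ 0 := Int.cast_ne_zero.2 hc
  have h1 : ∀ (γ : Type) [DecidableEq γ],
      (c • (1 : Matrix γ γ ℤ)).map (Int.castRingHom ℚ) = (c : ℚ) • 1 := fun γ _ => by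
    ext i j
    simp only [map_apply, Matrix.smul_apply, Matrix.one_apply, smul_eq_mul, mul_ite, mul_one,
      mul_zero, apply_ite (Int.castRingHom ℚ), eq_intCast, Int.cast_zero]
  have h2 : ((c : ℚ)⁻¹ • A.map (Int.castRingHom ℚ)) * B.map (Int.castRingHom ℚ) = 1 := by
    rw [Matrix.smul_mul, ← Matrix.map_mul, h, h1, inv_smul_smul₀ h0]
  have h3 := (mul_eq_one_comm_of_card_eq α β ℚ e).1 h2
  rw [Matrix.mul_smul, ← Matrix.map_mul, inv_smul_eq_iff₀ h0, ← h1] at h3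
  exact Matrix.map_injective Int.cast_injective h3

theorem exists_bs (h : PEL a b m n) : ∃ _ : Bs, Ok a b := by
  obtain ⟨V, q, hV⟩ := h.exists_orth
  obtain ⟨D, c, hc, hD⟩ : ∃ (D : Matrix μ μ ℤ) (c : ℕ), c ≠ 0 ∧ D * diagonal q = (c : ℤ) • 1 := by
    have h0 : (diagonal q).det ≠ 0 := by
      rw [det_diagonal]
      exact Finset.prod_ne_zero_iff.2 fun i _ => hV.ne i
    refine ⟨(diagonal q).det • (diagonal q).adjugate, (diagonal q).det.natAbs * (diagonal q).det.natAbs,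
      mul_ne_zero (Int.natAbs_ne_zero.2 h0) (Int.natAbs_ne_zero.2 h0), ?_⟩
    rw [Matrix.smul_mul, adjugate_mul, smul_smul, Int.natAbs_mul_self]
  have e0 : D * (Vᵀ * (J (Fin 8) ℤ * V)) = 0 := by
    rw [← Matrix.mul_assoc Vᵀ, hV.e1, Matrix.mul_zero]
  have e1 : D * (Vᵀ * (J (Fin 8) ℤ * (a * V))) = (c : ℤ) • 1 := by
    rw [← hD, ← hV.ea]
    simp only [Matrix.mul_assoc]
  have e2 : D * (Vᵀ * (J (Fin 8) ℤ * (b * V))) = 0 := by
    rw [← Matrix.mul_assoc Vᵀ, ← Matrix.mul_assoc _ b, hV.eb, Matrix.mul_zero]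
  have e3 : D * (Vᵀ * (J (Fin 8) ℤ * (a * (b * V)))) = 0 := by
    rw [← Matrix.mul_assoc a, ← Matrix.mul_assoc Vᵀ, ← Matrix.mul_assoc _ (a * b), hV.eab,
      Matrix.mul_zero]
  have r1 : ∀ X : Matrix ν μ ℤ, a * (a * X) = -((m : ℤ) • X) := fun X => by
    rw [← Matrix.mul_assoc, h.aa, Matrix.neg_mul, Matrix.smul_mul, Matrix.one_mul]
  have r2 : ∀ X : Matrix ν μ ℤ, b * (b * X) = (n : ℤ) • X := fun X => by
    rw [← Matrix.mul_assoc, h.bb, Matrix.smul_mul, Matrix.one_mul]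
  have r3 : ∀ X : Matrix ν μ ℤ, b * (a * X) = -(a * (b * X)) := fun X => by
    rw [← Matrix.mul_assoc a, h.ab, Matrix.neg_mul, neg_neg, Matrix.mul_assoc]
  obtain ⟨W, hW⟩ : ∃ W : Fin 4 → Matrix μ ν ℤ, ∀ k (X : Matrix ν μ ℤ), W k * X = D * (Vᵀ *
      (J (Fin 8) ℤ * ![(n : ℤ) • (a * X), (n : ℤ) • X, a * (b * X), -(b * X)] k)) :=
    ⟨fun k => D * (Vᵀ * (J (Fin 8) ℤ * ![(n : ℤ) • a, (n : ℤ) • 1, a * b, -b] k)), fun k X => by
      fin_cases k <;> simp only [Fin.reduceFinMk, cons_val, Matrix.mul_assoc, Matrix.smul_mul,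
        Matrix.one_mul, Matrix.neg_mul]⟩
  have hd : ∀ l, dd a b l * V = ![V, a * V, b * V, a * (b * V)] l := fun l => by
    fin_cases l <;> simp [dd, Matrix.mul_assoc]
  have key : ∀ k l, W k * (dd a b l * V) = if k = l then ((n * c : ℕ) : ℤ) • 1 else 0 := by
    intro k l
    rw [hW, hd]
    fin_cases k <;> fin_cases l <;>
      simp only [Fin.reduceFinMk, cons_val, Fin.reduceEq, reduceIte, r1, r2, r3, e0, e1, e2, e3,
        Matrix.mul_smul, Matrix.mul_neg, smul_zero, neg_zero, neg_neg, smul_smul, Nat.cast_mul]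
  have hn := mul_ne_zero h.n0.ne' hc
  refine ⟨⟨V, W, n * c, hn, by simpa [dd] using key 0 0⟩, @Ok.mk (_) _ _ key ?_⟩
  have h1 := flip_smul (A := Matrix.of fun (p : Fin 4 × μ) i => W p.1 p.2 i)
    (B := Matrix.of fun i (p : Fin 4 × μ) => (dd a b p.1 * V) i p.2) (by simp)
    (Int.natCast_ne_zero.2 hn) (by
      ext p p'
      refine (congrFun (congrFun (key p.1 p'.1) p.2) p'.2).trans ?_
      by_cases h1 : p.1 = p'.1 <;> simp [h1, Matrix.one_apply, Prod.ext_iff])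
  ext i j
  refine Eq.trans ?_ (congrFun (congrFun h1 i) j)
  rw [Matrix.sum_apply, Matrix.mul_apply, Fintype.sum_prod_type]
  rfl

theorem endQ (he : EndX a b τ) {g : Matrix ν ν ℚ} (hg : EndQ τ g) :
    ∃ q : Fin 4 → ℚ, g = ∑ k, q k • zM ℚ (dd a b k) := by
  have hd : (g.den : ℚ) ≠ 0 := Nat.cast_ne_zero.2 g.den_ne_zero
  have h1 : ∀ i j, (g.num i j : ℚ) = g.den * g i j := fun i j => by
    rw [← g.num_div_den i j, mul_div_cancel₀ _ hd]
  have h2 : zr g.num = (g.den : ℝ) • g.map (Rat.cast : ℚ → ℝ) := by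
    ext i j
    have := congrArg (Rat.cast : ℚ → ℝ) (h1 i j)
    simpa [zr] using this
  obtain ⟨d, c, h0, hc⟩ := he g.num (by rw [h2, Matrix.smul_mul, Matrix.mul_smul, hg])
  have h3 : (d : ℚ) * g.den ≠ 0 := mul_ne_zero (Int.cast_ne_zero.2 h0) hd
  refine ⟨fun k => ((d : ℚ) * g.den)⁻¹ * c k, ?_⟩
  simp only [mul_smul _ (_ : ℚ) (zM ℚ _), ← Finset.smul_sum]
  rw [eq_inv_smul_iff₀ h3, mul_smul, show (g.den : ℚ) • g = zM ℚ g.num from
    Matrix.ext fun i j => (h1 i j).symm, ← zM_smul, hc, Fin.sum_univ_four]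
  simp only [zM_add, zM_smul]
  rfl

theorem full_col [Bs] (hb : Ok a b) (he : EndX a b τ) {M : ℚ} (hM : M ≠ 0) :
    Full τ (M • col 1) := by
  intro P hP h
  choose q hq using fun i j => endQ he (hP i j)
  have h0 : (Bs.c : ℚ) ≠ 0 := Nat.cast_ne_zero.2 Bs.c0
  have h1 : ∀ k l (j s : μ), ((Bs.w k).map (Int.castRingHom ℚ) *ᵥ zM ℚ (dd a b l) *ᵥ col 1 j) s =
      if k = l ∧ s = j then (Bs.c : ℚ) else 0 := fun k l j s => by
    have h2 : ((Bs.w k).map (Int.castRingHom ℚ) *ᵥ zM ℚ (dd a b l) *ᵥ col 1 j) s =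
        ((Bs.w k * (dd a b l * ((1 : MZ) * Bs.v)) : Matrix μ μ ℤ) s j : ℤ) := by
      simp only [Matrix.mul_apply (M := Bs.w k), Matrix.mul_apply (M := dd a b l), Int.cast_sum,
        Int.cast_mul]
      rfl
    rw [h2, Matrix.one_mul, hb.dual]
    by_cases e : k = l <;> by_cases e' : s = j <;> simp [e, e']
  have h2 : ∀ i j k, q i j k = if k = 0 ∧ j = i then 1 else 0 := fun i j k => by
    have h3 := congrArg (fun x => ((Bs.w k).map (Int.castRingHom ℚ) *ᵥ x) j) (h i)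
    have h4 := h1 k 0 i j
    rw [show zM ℚ (dd a b 0) = 1 from zM_one ℚ, one_mulVec] at h4
    simp only [hq, Matrix.sum_mulVec, mulVec_sum, Pi.smul_apply, smul_mulVec, mulVec_smul,
      Finset.sum_apply, h1, h4, smul_eq_mul] at h3
    rw [Finset.sum_eq_single j (fun s _ e => by simp [e.symm]) (by simp),
      Finset.sum_eq_single k (fun s _ e => by simp [e.symm]) (by simp), if_pos ⟨rfl, rfl⟩] at h3
    split_ifs at h3 ⊢
    · exact mul_right_cancel₀ h0 (mul_left_cancel₀ hM (by linarith))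
    · exact mul_right_cancel₀ h0 (mul_left_cancel₀ hM (by linarith))
  intro i j
  rw [hq, Finset.sum_eq_single 0 (fun k _ e => by simp [h2, e]) (by simp), h2,
    show zM ℚ (dd a b 0) = 1 from zM_one ℚ]
  by_cases e : i = j
  · simp [e]
  · simp [e, Ne.symm e]

theorem relIndex_le_pow {M : Type} [AddCommGroup M] [Module.Free ℤ M] [Module.Finite ℤ M]
    (A H : AddSubgroup M) {k : ℕ} (hk : k ≠ 0) (h : ∀ y ∈ H, k • y ∈ A) :
    A.relIndex H ≤ k ^ Module.finrank ℤ M := by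
  obtain ⟨T, h1, h2, h3⟩ := cov H hk
  refine le_trans ?_ h1
  rw [AddSubgroup.relIndex, AddSubgroup.index, ← Nat.card_eq_finsetCard]
  refine Nat.card_le_card_of_surjective
    (fun t : T => ((⟨t.1, h2 _ t.2⟩ : H) : H ⧸ A.addSubgroupOf H)) fun x => ?_
  obtain ⟨⟨x, hx⟩, rfl⟩ := QuotientAddGroup.mk_surjective x
  obtain ⟨t, ht, y, hy, rfl⟩ := h3 x hx
  refine ⟨⟨t, ht⟩, QuotientAddGroup.eq.2 ?_⟩
  change -t + (t + k • y) ∈ A
  rw [neg_add_cancel_left]
  exact h y hy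

variable {K : IntermediateField ℚ ℂ} {r : Rep K} {U : Subgroup (ℂ ≃ₐ[K] ℂ)} {N : ℕ}

theorem AA_le (hc : COMM a b r) (hN : N ≠ 0) : AA r U N ≤ CmN a b N := by
  refine (AddSubgroup.closure_le _).2 fun R ⟨σ, _, hR⟩ => ?_
  have key : ∀ x : MZ, (∀ (l : ℕ) [Fact l.Prime], Commute (zM ℤ_[l] x) (r l σ : Matrix ν ν ℤ_[l])) →
      ∀ i j, (N : ℤ) ∣ (R * x - x * R) i j := fun x hx i j => Kz.dvd_of_padic hN fun l _ => by
    choose S hS using hR l
    have e : zM ℤ_[l] R = (r l σ : Matrix ν ν ℤ_[l]) - (N : ℤ_[l]) • Matrix.of S :=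
      Matrix.ext fun i j => by
        rw [Matrix.sub_apply, Matrix.smul_apply, of_apply, smul_eq_mul, ← hS, sub_sub_cancel]
        rfl
    have e2 : zM ℤ_[l] (R * x - x * R) =
        (N : ℤ_[l]) • (zM ℤ_[l] x * Matrix.of S - Matrix.of S * zM ℤ_[l] x) := by
      rw [sub_eq_add_neg, zM_add, zM_neg, zM_mul, zM_mul, e, sub_mul, mul_sub, (hx l).eq,
        Matrix.smul_mul, Matrix.mul_smul, smul_sub]
      abel
    exact ⟨_, congrFun (congrFun e2 i) j⟩
  exact fun i j => ⟨key a (fun l _ => (hc l σ).1) i j, key b (fun l _ => (hc l σ).2) i j⟩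

theorem relIndex_le [Bs] (hb : Ok a b) (hc : COMM a b r) (hN : N ≠ 0) :
    (AA r U N).relIndex (CmN a b N) ≤ Bs.c ^ 256 * ((AA r U N).map colZ).index := by
  have h1 : AA r U N ≤ ((AA r U N).map colZ).comap colZ ⊓ CmN a b N :=
    le_inf (AddSubgroup.le_comap_map _ _) (AA_le hc hN)
  rw [← AddSubgroup.relIndex_mul_relIndex _ _ _ h1 inf_le_right]
  refine Nat.mul_le_mul ?_ ?_
  · refine (relIndex_le_pow _ _ Bs.c0 ?_).trans_eq (by simp [Module.finrank_matrix])
    rintro R ⟨⟨S, hS, e⟩, hR⟩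
    have h2 : R - S ∈ CmN a b N := (CmN a b N).sub_mem hR (AA_le hc hN hS)
    have h3 : (R - S) * Bs.v = 0 := by
      rw [Matrix.sub_mul, sub_eq_zero]
      exact Matrix.ext fun i j => (congrFun (congrFun e j) i).symm
    rw [← sub_add_cancel R S, smul_add]
    refine (AA r U N).add_mem ?_ ((AA r U N).nsmul_mem hS _)
    generalize R - S = X at h2 h3
    choose A hA using fun i j => (h2 i j).1
    choose B hB using fun i j => (h2 i j).2
    have ea : X * a = a * X + (N : ℤ) • Matrix.of A := eq_add_of_sub_eq' (Matrix.ext hA)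
    have eb : X * b = b * X + (N : ℤ) • Matrix.of B := eq_add_of_sub_eq' (Matrix.ext hB)
    have h4 : ∀ k, ∃ Y : Matrix ν μ ℤ, X * (dd a b k * Bs.v) = (N : ℤ) • Y := fun k => by
      fin_cases k
      · exact ⟨0, by simp [dd, h3]⟩
      · refine ⟨Matrix.of A * Bs.v, ?_⟩
        change X * (a * Bs.v) = _
        rw [← Matrix.mul_assoc, ea, Matrix.add_mul, Matrix.mul_assoc, h3, Matrix.mul_zero, zero_add,
          Matrix.smul_mul]
      · refine ⟨Matrix.of B * Bs.v, ?_⟩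
        change X * (b * Bs.v) = _
        rw [← Matrix.mul_assoc, eb, Matrix.add_mul, Matrix.mul_assoc, h3, Matrix.mul_zero, zero_add,
          Matrix.smul_mul]
      · refine ⟨(a * Matrix.of B + Matrix.of A * b) * Bs.v, ?_⟩
        change X * (a * b * Bs.v) = _
        rw [← Matrix.mul_assoc, ← Matrix.mul_assoc, ea, add_mul, Matrix.mul_assoc a, eb]
        simp only [Matrix.add_mul, Matrix.mul_add, Matrix.mul_assoc, h3, Matrix.mul_zero, zero_add,
          Matrix.smul_mul, Matrix.mul_smul, smul_add]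
    choose Y hY using h4
    rw [← natCast_zsmul, ← Matrix.mul_one X, ← Matrix.mul_smul, ← hb.span, Finset.mul_sum]
    refine sum_mem fun k _ => ?_
    rw [← Matrix.mul_assoc, hY, Matrix.smul_mul]
    exact dual_smul_mem _
  · have := AZ_finite (r := r) (U := U) hN
    rw [AddSubgroup.inf_relIndex_right, AddSubgroup.relIndex_comap]
    exact AddSubgroup.relIndex_le_of_le_right le_top (by
      rw [AddSubgroup.relIndex_top_right]
      exact AddSubgroup.index_ne_zero_of_finite) |>.trans_eq (AddSubgroup.relIndex_top_right _)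

end M8.F
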