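import Pool.Agent.Lib.MP_33b3f9_ag.M8.F.Schw
import Pool.Agent.Lib.MP_33b3f9_ag.M4.F.FinA
import Pool.Agent.Lib.MP_33b3f9_ag.M8.F.FinB

/-!
A function that vanishes on a lattice and on a full line vanishes.
-/

set_option autoImplicit false

noncomputable section

namespace M8.F

open Matrix Filter M4 M4.F

variable {κ : Type} [Fintype κ] [DecidableEq κ] {τ : Mat}

theorem fin (hτ : InH τ) {c : ℝ} {s : VR κ → ℂ} (hs : Lin τ c s)
    (G : AddSubgroup (VQ κ)) (hG : ∀ x ∈ G, s (cr x) = 0) {N : ℕ} (hN : N ≠ 0) (hz : zl κ N ≤ G)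
    {v : VQ κ} (hv : ∀ j : ℕ, ((2 : ℚ) ^ j)⁻¹ • v ∈ G) (hf : Full τ v) : s = 0 := by
  let W : Set (VR κ) := {x | ∀ g ∈ G, s (x + cr g) = 0}
  have hW : IsClosed W := by
    have e : W = ⋂ g ∈ G, {x | s (x + cr g) = 0} := by
      ext x
      simp only [Set.mem_iInter]
      rfl
    rw [e]
    exact isClosed_biInter fun g _ => isClosed_eq (hs.1.comp (by fun_prop)) continuous_const
  have hH := fin_closed hW
  have hGH : ∀ g ∈ G, cr g ∈ finStab W := fun g hg x hx =>
    ⟨fun g' hg' => by rw [add_assoc, ← cr_add]; exact hx _ (G.add_mem hg hg'),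
      fun g' hg' => by rw [sub_add, sub_eq_add_neg, neg_sub, ← cr_sub]; exact hx _ (G.sub_mem hg' hg)⟩
  have hj : ∀ y ∈ lines (finStab W), jv τ y ∈ lines (finStab W) := by
    intro y hy t x hx
    have key : ∀ u : ℝ, x + u • jv τ y ∈ W := fun u g hg => by
      rw [add_right_comm]
      exact hs.cplx (fun t' => by rw [add_right_comm]; exact (hy t' x hx).1 g hg) u
    refine ⟨key t, ?_⟩
    rw [sub_eq_add_neg, ← neg_smul]
    exact key _
  have hN' : (N : ℝ) ≠ 0 := Nat.cast_ne_zero.2 hN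
  let b := (Pi.basis fun _ : κ => Pi.basisFun ℝ ν).unitsSMul fun _ => Units.mk0 (N : ℝ) hN'
  have hb : ∀ i, b i = cr ((N : ℚ) • zq (Pi.single i.1 (Pi.single i.2 1))) := fun i => by
    rw [Module.Basis.unitsSMul_apply, cr_smul, cr_zq, Pi.basis_apply, Pi.basisFun_apply]
    funext k l
    by_cases hk : k = i.1
    · subst hk
      simp [zR, rz, Pi.single_apply]
    · simp [zR, rz, hk]
  obtain ⟨P, hE, hP⟩ := exists_proj hτ (lines (finStab W)) hj
    ((lines_rational b hH fun i => hb i ▸ hGH _ (hz (mem_zl.2 ⟨_, rfl⟩))).trans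
      (Submodule.span_mono fun x hx => ⟨hx.1, by
        have h : Submodule.span ℤ (Set.range b) ≤
            (AddMonoidHom.mk' (cr (κ := κ)) cr_add).range.toIntSubmodule :=
          Submodule.span_le.2 (Set.range_subset_iff.2 fun i => ⟨_, (hb i).symm⟩)
        obtain ⟨y, hy⟩ := h hx.2
        exact ⟨y, hy.symm⟩⟩))
  have hl : cr v ∈ lines (finStab W) := by
    intro t
    let S := (finStab W).comap (LinearMap.toSpanSingleton ℝ _ (cr v)).toAddMonoidHom
    have hS : IsClosed (S : Set ℝ) := hH.preimage (f := fun t : ℝ => t • cr v) (by fun_prop)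
    have hd : Dense (S : Set ℝ) := S.dense_of_not_isolated_zero fun ε hε => by
      obtain ⟨j, hj⟩ := exists_pow_lt_of_lt_one hε (show (2 : ℝ)⁻¹ < 1 by norm_num)
      refine ⟨(2 : ℝ)⁻¹ ^ j, ?_, by positivity, hj⟩
      have h := hGH _ (hv j)
      rw [cr_smul, Rat.cast_inv, Rat.cast_pow, Rat.cast_ofNat, ← inv_pow] at h
      exact h
    exact hS.closure_subset (hd t)
  have hP1 := hf P hE fun i => funext fun l => by
    have h := congrFun ((hP _).1 hl i) l
    simp only [Finset.sum_apply, mulVec, dotProduct, map_apply, cr] at h ⊢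
    exact_mod_cast h
  funext x
  have hx : x ∈ lines (finStab W) := (hP x).2 fun i => by
    rw [Finset.sum_eq_single i (fun j _ h => by
      rw [hP1, if_neg h.symm, Matrix.map_zero _ Rat.cast_zero, zero_mulVec]) (by simp), hP1,
      if_pos rfl, Matrix.map_one _ Rat.cast_zero Rat.cast_one, one_mulVec]
  have h := (hx 1 0 fun g hg => by rw [zero_add]; exact hG g hg).1 0 G.zero_mem
  have h0 : cr (0 : VQ κ) = 0 := by
    funext i j
    simp [cr]
  rwa [h0, zero_add, add_zero, one_smul] at h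

end M8.F
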