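import Pool.Agent.Lib.MP_33b3f9_ag.M8.F.Ari

/-!
The ring of lifts, its dual, and the twisted sections.
-/

set_option autoImplicit false

noncomputable section

namespace M8.F

open Matrix Filter M4 M4.F

variable {K : IntermediateField ℚ ℂ} {τ : Mat} {r : Rep K} {U : Subgroup (ℂ ≃ₐ[K] ℂ)} {N : ℕ}

theorem one_mem_AA : (1 : MZ) ∈ AA r U N := by
  exact AddSubgroup.subset_closure ⟨1, U.one_mem, by simpa using cong_one r N 0⟩

theorem dual_smul_mem (S : MZ) : (N : ℤ) • S ∈ AA r U N := by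
  rw [← add_sub_cancel_left 1 ((N : ℤ) • S)]
  exact sub_mem (AddSubgroup.subset_closure ⟨1, U.one_mem, cong_one r N S⟩) one_mem_AA

theorem zl_le_AL [Bs] : zl μ (Bs.c * N) ≤ AL r U N := by
  intro x hx
  obtain ⟨n, rfl⟩ := mem_zl.1 hx
  refine ⟨_, dual_smul_mem ((Matrix.of n)ᵀ * Bs.w 0), ?_⟩
  rw [map_zsmul, col_w, ← Int.cast_smul_eq_zsmul ℚ, smul_smul, Int.cast_natCast, Nat.cast_mul,
    mul_comm]

theorem AL_le [Bs] : AL r U N ≤ zl μ 1 := by
  rintro _ ⟨S, -, rfl⟩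
  exact mem_zl_one.2 ⟨_, rfl⟩

theorem mul_mem_AA {σ : ℂ ≃ₐ[K] ℂ} (hσ : σ ∈ U) {R S : MZ} (hR : Cong r σ N R)
    (hS : S ∈ AA r U N) : R * S ∈ AA r U N := by
  induction hS using AddSubgroup.closure_induction with
  | mem S h =>
    obtain ⟨σ', h1, h2⟩ := h
    exact AddSubgroup.subset_closure ⟨σ * σ', U.mul_mem hσ h1, cong_mul hR h2⟩
  | zero => rw [Matrix.mul_zero]; exact zero_mem _
  | add a b _ _ h1 h2 => rw [Matrix.mul_add]; exact add_mem h1 h2
  | neg a _ h1 => rw [Matrix.mul_neg]; exact neg_mem h1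

/-- The pairing with integral tuples. -/
def dual_hom (c : VQ μ) : (μ → ν → ℤ) →+ ℚ where
  toFun S := EK c (zq S)
  map_zero' := by simp [EK, zq, Kz.Ef]
  map_add' := fun R S => by
    rw [show zq (R + S) = zq R + zq S by funext i j; simp [zq], EK, EK, EK,
      ← Finset.sum_add_distrib]
    exact Finset.sum_congr rfl fun i _ => Kz.Ef_add_right _ _ _

theorem dual_apply (c : VQ μ) (S : μ → ν → ℤ) : dual_hom c S = ∑ i, Kz.Ef (c i) (zq S i) := rfl

theorem dual_int (n S : μ → ν → ℤ) : ∃ k : ℤ, dual_hom (zq n) S = k :=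
  ⟨EK n S, by
    rw [EK, Int.cast_sum, dual_apply]
    exact Finset.sum_congr rfl fun i _ => Kz.Ef_map (Int.castRingHom ℚ) _ _⟩

theorem dual_left (q : ℚ) (c : VQ μ) (S : μ → ν → ℤ) : dual_hom (q • c) S = q * dual_hom c S := by
  rw [dual_apply, dual_apply, Finset.mul_sum]
  exact Finset.sum_congr rfl fun i _ => Kz.Ef_smul_left _ _ _

theorem dual_sub (c c' : VQ μ) (S : μ → ν → ℤ) :
    dual_hom (c - c') S = dual_hom c S - dual_hom c' S := by
  rw [dual_apply, dual_apply, dual_apply, ← Finset.sum_sub_distrib]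
  exact Finset.sum_congr rfl fun i _ => Kz.Ef_sub_left _ _ _

theorem dual_one [Bs] (h : AV τ K r) (hN : N ≠ 0) {σ : ℂ ≃ₐ[K] ℂ} (hσ : σ ∈ U) {c : VQ μ}
    (hc : c ∈ dual (AL r U N)) {S : MZ} (hS : S ∈ AA r U N) :
    ∀ᶠ R in lf r σ, ∃ k : ℤ, (k : ℚ) = dual_hom (mv R c) (colZ S) := by
  obtain ⟨M, n, hM, hn⟩ := exists_den c
  have h0 := mul_ne_zero hM hN
  obtain ⟨R', hR'⟩ := Kz.exists_cong r σ⁻¹ h0
  obtain ⟨k, hk⟩ := hc _ ⟨_, mul_mem_AA (U.inv_mem hσ) (cong_of_dvd (dvd_mul_left N M) hR') hS, rfl⟩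
  filter_upwards [ee_gal h σ 1 c (col (R' * S)), ev_cong r σ h0] with R h1 h2
  rw [one_mul, one_mul, hk, Rat.cast_intCast, ee_int, map_one, mv_col] at h1
  obtain ⟨a, ha⟩ := dual_ee h1.symm
  have h3 := cong_mul h2 hR'
  rw [mul_inv_cancel] at h3
  obtain ⟨T, hT⟩ := cong_sub h0 h3 (cong_one r _ 0)
  obtain ⟨b, hb⟩ := dual_int (fun i => R *ᵥ n i) (colZ ((N : ℤ) • (T * S)))
  change dual_hom _ (colZ _) = _ at ha
  rw [← Matrix.mul_assoc, hT, smul_zero, add_zero, Matrix.add_mul, Matrix.one_mul, map_add, map_add,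
    Matrix.smul_mul, Nat.cast_mul, mul_smul, map_zsmul, map_zsmul, zsmul_eq_mul, Int.cast_natCast,
    ← dual_left, ← mv_smul, hn, mv_zq, hb] at ha
  exact ⟨a - b, by rw [Int.cast_sub, ← ha, add_sub_cancel_right]⟩

theorem dual_stab [Bs] (h : AV τ K r) (hN : N ≠ 0) : Stab r U (dual (AL r U N)) := by
  intro σ hσ c hc
  obtain ⟨s, hs⟩ : (AA r U N).FG := (Submodule.fg_iff_addSubgroup_fg _).1
    (IsNoetherian.noetherian (AA r U N).toIntSubmodule)
  filter_upwards [(eventually_all_finset s).2 fun S hS =>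
    dual_one h hN hσ hc (hs ▸ AddSubgroup.subset_closure hS)] with R hR
  rintro _ ⟨S, hS, rfl⟩
  have h1 : AA r U N ≤ (Int.castAddHom ℚ).range.comap ((dual_hom (mv R c)).comp colZ) :=
    hs ▸ (AddSubgroup.closure_le _).2 hR
  obtain ⟨k, hk⟩ := h1 hS
  exact ⟨k, hk.symm⟩

theorem dual_char {A : AddSubgroup (μ → ν → ℤ)} (hN : N ≠ 0) (hA : ∀ S, (N : ℤ) • S ∈ A)
    (χ : AddChar ((μ → ν → ℤ) ⧸ A) ℂ) :
    ∃ c : VQ μ, ∀ S : μ → ν → ℤ, χ S = ee (dual_hom c S) := by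
  have : NeZero N := ⟨hN⟩
  have h1 : ∀ (i : μ) (j : ν), ∃ q : ℚ,
      χ (Pi.single i (Pi.single j 1) : μ → ν → ℤ) = ee q := fun i j => by
    obtain ⟨k, -, hk⟩ := (Complex.isPrimitiveRoot_exp N hN).eq_pow_of_pow_eq_one
      (ξ := χ (Pi.single i (Pi.single j 1) : μ → ν → ℤ)) (by
        rw [← AddChar.map_nsmul_eq_pow, ← QuotientAddGroup.mk_nsmul, ← natCast_zsmul,
          (QuotientAddGroup.eq_zero_iff _).2 (hA _), AddChar.map_zero_eq_one])
    refine ⟨k / N, ?_⟩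
    rw [← hk, ← Complex.exp_nat_mul, ee]
    congr 1
    push_cast
    ring
  choose q hq using h1
  refine ⟨fun i => Sum.elim (fun a => q i (Sum.inr a)) fun a => -q i (Sum.inl a), fun S => ?_⟩
  have hadd : ∀ (c : VQ μ) (R S : μ → ν → ℤ), χ R = ee (dual_hom c R) → χ S = ee (dual_hom c S) →
      χ (R + S : μ → ν → ℤ) = ee (dual_hom c (R + S)) := fun c R S h1 h2 => by
    rw [QuotientAddGroup.mk_add, AddChar.map_add_eq_mul, h1, h2, map_add, Rat.cast_add, ee_add]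
  induction S using Pi.single_induction with
  | zero => simp
  | add R S h1 h2 => exact hadd _ R S h1 h2
  | single i y =>
    induction y using Pi.single_induction with
    | zero => simp
    | add R S h1 h2 =>
      rw [Pi.single_add]
      exact hadd _ _ _ h1 h2
    | single j x =>
      have e : dual_hom (fun i => Sum.elim (fun a => q i (Sum.inr a)) fun a => -q i (Sum.inl a))
          (Pi.single i (Pi.single j 1)) = q i j := by
        rw [dual_apply, Finset.sum_eq_single i (fun b _ hb => by simp [Kz.Ef, zq, hb])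
          (by simp)]
        cases j <;> simp [Kz.Ef, zq, Pi.single_apply]
      rw [← mul_one x, ← smul_eq_mul, Pi.single_smul', Pi.single_smul', map_zsmul, e,
        QuotientAddGroup.mk_zsmul, AddChar.map_zsmul_eq_zpow, hq, ee, ee, ← Complex.exp_int_mul,
        zsmul_eq_mul]
      congr 1
      push_cast
      ring

theorem smul_mem_AZ [Bs] (S : μ → ν → ℤ) : ((Bs.c * N : ℕ) : ℤ) • S ∈ (AA r U N).map colZ :=
  ⟨_, dual_smul_mem ((Matrix.of S)ᵀ * Bs.w 0), by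
    rw [map_zsmul, colZ_w, smul_smul, Nat.cast_mul, mul_comm]⟩

theorem AZ_finite [Bs] (hN : N ≠ 0) : Finite ((μ → ν → ℤ) ⧸ (AA r U N).map colZ) := by
  have : AddGroup.FG (μ → ν → ℤ) := Module.Finite.iff_addGroup_fg.1 inferInstance
  refine AddCommGroup.finite_of_fg_isAddTorsion _ fun x => ?_
  obtain ⟨S, rfl⟩ := QuotientAddGroup.mk_surjective x
  refine isOfFinAddOrder_iff_nsmul_eq_zero.2 ⟨_, Nat.pos_of_ne_zero (mul_ne_zero Bs.c0 hN), ?_⟩
  rw [← QuotientAddGroup.mk_nsmul, ← natCast_zsmul]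
  exact (QuotientAddGroup.eq_zero_iff _).2 (smul_mem_AZ _)

/-- Characters of the finite quotient group. -/
theorem dual_index [Bs] (hN : N ≠ 0) : ∃ c : Fin ((AA r U N).map colZ).index → VQ μ,
    (∀ a, c a ∈ dual (AL r U N)) ∧ ∀ a a', c a - c a' ∈ zl μ 1 → a = a' := by
  have := AZ_finite (r := r) (U := U) hN
  have := Fintype.ofFinite ((μ → ν → ℤ) ⧸ (AA r U N).map colZ)
  have e : AddChar ((μ → ν → ℤ) ⧸ (AA r U N).map colZ) ℂ ≃ Fin ((AA r U N).map colZ).index :=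
    Finite.equivFinOfCardEq (by
      rw [AddSubgroup.index, Nat.card_eq_fintype_card, Nat.card_eq_fintype_card, AddChar.card_eq])
  choose c hc using dual_char (mul_ne_zero Bs.c0 hN) (smul_mem_AZ (r := r) (U := U) (N := N))
  refine ⟨fun a => c (e.symm a), ?_, fun a a' h => e.symm.injective ?_⟩
  · rintro a _ ⟨S, hS, rfl⟩
    refine dual_ee ((hc _ (colZ S)).symm.trans ?_)
    rw [(QuotientAddGroup.eq_zero_iff _).2 (AddSubgroup.mem_map_of_mem _ hS), AddChar.map_zero_eq_one]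
  · obtain ⟨n, hn⟩ := mem_zl_one.1 h
    refine AddChar.ext _ _ fun x => ?_
    obtain ⟨S, rfl⟩ := QuotientAddGroup.mk_surjective x
    obtain ⟨k, hk⟩ := dual_int n S
    rw [← hn, dual_sub, sub_eq_iff_eq_add] at hk
    rw [hc, hc, hk, Rat.cast_add, ee_add, Rat.cast_intCast, ee_int, one_mul]

theorem dual_tw {κ : Type} [Fintype κ] (hτ : InH τ) (t : ℂ) (n : κ → ν → ℤ) (x : VR κ) :
    ∃ u : ℂ, ‖u‖ = 1 ∧ ∀ c, Tw τ t c (x + zR n) = u * (ee (EK c (zR n) : ℝ) * Tw τ t c x) := by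
  refine ⟨∏ i, chi (n i) * ee (-(E (rz (n i)) (x i) / 2) : ℝ), ?_, fun c => ?_⟩
  · simp only [norm_prod, norm_mul, norm_chi, norm_ee_real, mul_one, Finset.prod_const_one]
  rw [EK, Complex.ofReal_sum, ee_sum, Tw, Tw, ← Finset.prod_mul_distrib, ← Finset.prod_mul_distrib]
  refine Finset.prod_congr rfl fun i _ => ?_
  have h := congrFun ((U_Th_mem hτ (c i)).2 (n i)) (x i)
  rw [U_apply, Pi.smul_apply, smul_eq_mul, pow_one, Nat.cast_one, Complex.ofReal_one, one_mul,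
    ← eq_inv_mul_iff_mul_eq₀ (ee_ne_zero _), ← ee_neg] at h
  change U 1 (c i) (Th τ) (x i + rz (n i)) / t = _ * (ee (E (c i) (rz (n i))) * _)
  rw [h]
  push_cast
  ring

/-- The twisted sections for twists in the dual have a common factor of automorphy. -/
theorem tw_per {κ : Type} [Fintype κ] (hτ : InH τ) (t : ℂ) {Λ : AddSubgroup (VQ κ)}
    (hΛ : Λ ≤ zl κ 1) {y : VQ κ} (hy : y ∈ Λ) (x : VR κ) : ∃ u : ℂ, ‖u‖ = 1 ∧
      ∀ c ∈ dual Λ, Tw τ t (cr c) (x + cr y) = u * Tw τ t (cr c) x := by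
  obtain ⟨n, rfl⟩ := mem_zl_one.1 (hΛ hy)
  obtain ⟨u, h1, h2⟩ := dual_tw hτ t n x
  refine ⟨u, h1, fun c hc => ?_⟩
  obtain ⟨k, hk⟩ := hc _ hy
  have e : EK (cr c) (cr (zq n)) = ((EK c (zq n) : ℚ) : ℝ) := by
    rw [EK, EK, Rat.cast_sum]
    exact Finset.sum_congr rfl fun i _ => Kz.Ef_map (Rat.castHom ℝ) _ _
  rw [cr_zq] at e ⊢
  rw [h2, e, hk, Rat.cast_intCast, Complex.ofReal_intCast, ee_int, one_mul]

theorem tw_shift {κ : Type} [Fintype κ] (hτ : InH τ) (t : ℂ) (c : VR κ) (n : κ → ν → ℤ) :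
    ∃ u : ℂ, ‖u‖ = 1 ∧ ∀ x, Tw τ t (c + zR n) x = u * Tw τ t c x := by
  have _ := hτ
  refine ⟨∏ i, chi (n i) * ee (E (c i) (rz (n i)) / 2 : ℝ), ?_, fun x => ?_⟩
  · simp only [norm_prod, norm_mul, norm_chi, norm_ee_real, mul_one, Finset.prod_const_one]
  rw [Tw, Tw, ← Finset.prod_mul_distrib]
  refine Finset.prod_congr rfl fun i _ => ?_
  change U 1 (c i + rz (n i)) (Th τ) (x i) / t = _
  rw [U_add_rz_Th, Pi.smul_apply, smul_eq_mul, mul_div_assoc]
  push_cast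
  rfl

theorem tw_li {κ α : Type} [Fintype κ] (hτ : InH τ) {t : ℂ} (ht : t ≠ 0) (c : α → VQ κ)
    (hc : ∀ a a', c a - c a' ∈ zl κ 1 → a = a') :
    LinearIndependent ℂ fun a => Tw τ t (cr (c a)) := by
  classical
  obtain ⟨φ, hφ'⟩ : ∃ φ : α → Multiplicative (κ → ν → ℤ) →* ℂ,
      ∀ a n, φ a n = ee (EK (cr (c a)) (zR n.toAdd) : ℝ) := ⟨fun a =>
    { toFun := fun n => ee (EK (cr (c a)) (zR n.toAdd) : ℝ)
      map_one' := by simp [EK, zR]
      map_mul' := fun n n' => by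
        rw [← ee_add, ← Complex.ofReal_add, EK, EK, EK, ← Finset.sum_add_distrib]
        simp only [zR, toAdd_mul, Pi.add_apply, rz_add, Kz.Ef_add_right] },
    fun _ _ => rfl⟩
  have hφ : Function.Injective φ := fun a b e => hc a b fun i => by
    obtain ⟨n, hn⟩ := exists_rz_of_E (d := cr (c a) i - cr (c b) i) fun n => by
      have e' := DFunLike.congr_fun e (.ofAdd (Pi.single i n))
      have h1 : ∀ x : VR κ, EK x (zR (Pi.single i n)) = E (x i) (rz n) := fun x => by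
        rw [EK, Finset.sum_eq_single i (fun b _ hb => by simp [zR, hb]) (by simp), zR,
          Pi.single_eq_same, Kz.E_eq]
      rw [hφ', hφ', toAdd_ofAdd, h1, h1] at e'
      rw [E_sub_left, Complex.ofReal_sub, sub_eq_add_neg, ee_add, ee_neg, e',
        mul_inv_cancel₀ (ee_ne_zero _)]
    refine fun j => ⟨n j, ?_⟩
    have h2 : (c a i j : ℝ) - c b i j = n j := congrFun hn j
    rw [Nat.cast_one, one_mul, Pi.sub_apply, Pi.sub_apply]
    exact_mod_cast h2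
  have hl := linearIndependent_iff'.1
    ((linearIndependent_monoidHom (Multiplicative (κ → ν → ℤ)) ℂ).comp φ hφ)
  refine linearIndependent_iff'.2 fun s g e a ha => ?_
  choose x hx using fun i => Function.ne_iff.1
    (U_eq_zero (m := 1) (y := cr (c a) i).not.2 (Th_ne_zero hτ))
  have h0 : Tw τ t (cr (c a)) x ≠ 0 := Finset.prod_ne_zero_iff.2 fun i _ => div_ne_zero (hx i) ht
  refine (mul_eq_zero.1 (hl s (fun b => g b * Tw τ t (cr (c b)) x) ?_ a ha)).resolve_right h0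
  funext n
  obtain ⟨u, h1, h2⟩ := dual_tw hτ t n.toAdd x
  have e1 := congrFun e (x + zR n.toAdd)
  simp only [Finset.sum_apply, Pi.smul_apply, smul_eq_mul, Pi.zero_apply, h2] at e1
  refine (mul_eq_zero.1 (Eq.trans ?_ e1)).resolve_left (norm_ne_zero_iff.1 (h1 ▸ one_ne_zero))
  rw [Finset.sum_apply, Finset.mul_sum]
  refine Finset.sum_congr rfl fun j _ => ?_
  rw [Pi.smul_apply, Function.comp_apply, hφ', smul_eq_mul]
  ring

end M8.F
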