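import Pool.Agent.Lib.MP_33b3f9_ag.M8.F.Dz
import Pool.Agent.Lib.MP_33b3f9_ag.M8.F.Dual
import Pool.Agent.Lib.MP_33b3f9_ag.M8.F.Line
import Pool.Agent.Lib.MP_33b3f9_ag.M4.F.MinB
import Pool.Agent.Lib.MP_33b3f9_ag.M4.F.Cov

/-!
The space of sections: dimension and periodicity.
-/

set_option autoImplicit false

namespace M8.F

open Matrix Module M4 M4.F

variable {K : IntermediateField ℚ ℂ} {τ : Mat} {r : Rep K} {U : Subgroup (ℂ ≃ₐ[K] ℂ)} {N : ℕ}
  {t : ℂ} {Λ : AddSubgroup (VQ μ)}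

/-- `Submodule.span_le`, `tw_hol`. -/
theorem GS_le (hτ : InH τ) : GS τ t Λ ≤ HolK τ 1 := by
  refine Submodule.span_le.2 ?_
  rintro _ ⟨c, -, rfl⟩
  exact tw_hol hτ t _

/-- Test against `N` times the unit vectors (`Kz.Ef_eq_J` or unfold `EK`, `Kz.Ef`). -/
theorem dual_den (h : zl μ N ≤ Λ) {c : VQ μ} (hc : c ∈ dual Λ) :
    ∃ a : μ → ν → ℤ, (N : ℚ) • c = zq a := by
  have h1 : ∀ (i : μ) (j : ν), ∃ n : ℤ, EK c ((N : ℚ) • zq (Pi.single i (Pi.single j 1))) = n :=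
    fun i j => hc _ (h (mem_zl.2 ⟨_, rfl⟩))
  have h2 : ∀ (i : μ) (j : ν), EK c ((N : ℚ) • zq (Pi.single i (Pi.single j 1))) =
      Kz.Ef (c i) (Pi.single j (N : ℚ)) := fun i j => by
    rw [EK, Finset.sum_eq_single i (fun b _ hb => by simp [Kz.Ef, zq, hb]) (by simp)]
    congr 1
    funext l
    by_cases hl : l = j <;> simp [zq, hl]
  have h3 : ∀ (i : μ) (j : ν), ∃ n : ℤ, (N : ℚ) * c i j = n := fun i j => by
    rcases j with a | a
    · obtain ⟨n, hn⟩ := h1 i (Sum.inr a)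
      rw [h2] at hn
      simp [Kz.Ef, Pi.single_apply] at hn
      exact ⟨n, by linarith⟩
    · obtain ⟨n, hn⟩ := h1 i (Sum.inl a)
      rw [h2] at hn
      simp [Kz.Ef, Pi.single_apply] at hn
      exact ⟨-n, by push_cast; linarith⟩
  choose a ha using h3
  exact ⟨a, funext fun i => funext fun j => ha i j⟩

/-- `cov` for `⊤` in `μ → ν → ℤ` (rank `64`) and `k = N`: `c = N⁻¹ • zq s + zq y` with `s ∈ T`, so
by `tw_shift` the space lies in the span of the image of `T`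
(`Submodule.finiteDimensional_of_le`, `finrank_span_finset_le_card`). -/
theorem GS_fin (hτ : InH τ) (hN : N ≠ 0) (h : zl μ N ≤ Λ) :
    Module.Finite ℂ (GS τ t Λ) ∧ finrank ℂ (GS τ t Λ) ≤ N ^ 64 := by
  classical
  obtain ⟨T, hT, -, hc⟩ := cov (⊤ : AddSubgroup (μ → ν → ℤ)) hN
  have hr : finrank ℤ (μ → ν → ℤ) = 64 := by simp [Module.finrank_pi_fintype]
  have hN' : (N : ℚ) ≠ 0 := Nat.cast_ne_zero.2 hN
  have hle : GS τ t Λ ≤ Submodule.span ℂ
      (T.image fun s => Tw τ t (cr ((N : ℚ)⁻¹ • zq s)) : Finset (VR μ → ℂ)) := by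
    refine Submodule.span_le.2 ?_
    rintro _ ⟨c, hc', rfl⟩
    obtain ⟨a, ha⟩ := dual_den h hc'
    obtain ⟨s, hs, y, -, rfl⟩ := hc a trivial
    have e : c = (N : ℚ)⁻¹ • zq s + zq y := by
      rw [(eq_inv_smul_iff₀ hN').2 ha]
      funext i j
      simp [zq, mul_add, hN']
    obtain ⟨u, -, hu⟩ := tw_shift hτ t (cr ((N : ℚ)⁻¹ • zq s)) y
    have e2 : Tw τ t (cr c) = u • Tw τ t (cr ((N : ℚ)⁻¹ • zq s)) := by
      rw [e, cr_add, cr_zq]
      exact funext hu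
    exact Set.mem_of_eq_of_mem e2 (Submodule.smul_mem _ _
      (Submodule.subset_span (Finset.mem_coe.2 (Finset.mem_image_of_mem _ hs))))
  exact ⟨Submodule.finiteDimensional_of_le hle, (Submodule.finrank_mono hle).trans
    ((finrank_span_finset_le_card _).trans (Finset.card_image_le.trans (hr ▸ hT)))⟩

/-- `dual_index`, `tw_li`, `LinearIndependent.fintype_card_le_finrank` inside the subspace. -/
theorem index_le [Bs] (hτ : InH τ) (ht : t ≠ 0) (hN : N ≠ 0) :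
    ((AA r U N).map colZ).index ≤ finrank ℂ (GS τ t (AL r U N)) := by
  obtain ⟨c, h1, h2⟩ := dual_index (r := r) (U := U) hN
  have := (GS_fin (t := t) hτ (mul_ne_zero Bs.c0 hN) (zl_le_AL (r := r) (U := U))).1
  have h3 : LinearIndependent ℂ fun a =>
      (⟨Tw τ t (cr (c a)), Submodule.subset_span ⟨c a, h1 a, rfl⟩⟩ : GS τ t (AL r U N)) :=
    LinearIndependent.of_comp (GS τ t (AL r U N)).subtype (tw_li hτ ht c h2)
  simpa using h3.fintype_card_le_finrank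

/-- `tw_per`, `Submodule.span_induction` for `f (x + cr y) = u * f x`. -/
theorem GS_per (hτ : InH τ) (hΛ : Λ ≤ zl μ 1) {f : VR μ → ℂ} (hf : f ∈ GS τ t Λ) {y : VQ μ}
    (hy : y ∈ Λ) {x : VR μ} (hx : f x = 0) : f (x + cr y) = 0 := by
  obtain ⟨u, -, hu⟩ := tw_per hτ t hΛ hy x
  have h1 : f (x + cr y) = u * f x := by
    clear hx
    induction hf using Submodule.span_induction with
    | mem g hg =>
      obtain ⟨c, hc, rfl⟩ := hg
      exact hu c hc
    | zero => simp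
    | add g g' _ _ h h' => rw [Pi.add_apply, Pi.add_apply, h, h', mul_add]
    | smul a g _ h => rw [Pi.smul_apply, Pi.smul_apply, h, smul_eq_mul, smul_eq_mul, mul_left_comm]
  rw [h1, hx, mul_zero]

/-- `cov` for `AA r U N` in `MZ` (rank `256`) and `k = M`; a point of `LL r U N M` is `qq M a` with
`a ∈ AA r U (M * N) ≤ AA r U N` (`AddSubgroup.closure_mono`, `cong_of_dvd`), `a = s + M • y`, so it
is `qq M s + col y`; `finrank_le_add_card`, `GS_per`. -/
theorem GS_rank [Bs] (hτ : InH τ) (hN : N ≠ 0) {M : ℕ} (hM : M ≠ 0) :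
    finrank ℂ (GS τ t (AL r U N)) ≤ kk τ t (AL r U N) (LL r U N M) + M ^ 256 := by
  classical
  obtain ⟨T, hT, -, hc⟩ := cov (AA r U N) hM
  have hr : finrank ℤ MZ = 256 := by simp [Module.finrank_matrix]
  have := (GS_fin (t := t) hτ (mul_ne_zero Bs.c0 hN) (zl_le_AL (r := r) (U := U))).1
  refine (finrank_le_add_card (GS τ t (AL r U N)) (cr '' LL r U N M)
    (T.image fun s => cr (qq M s)) fun f hf h0 => ?_).trans
    (Nat.add_le_add_left (Finset.card_image_le.trans (hr ▸ hT)) _)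
  rintro _ ⟨_, ⟨a, ha, rfl⟩, rfl⟩
  have h1 : AA r U (M * N) ≤ AA r U N := AddSubgroup.closure_mono fun R ⟨σ, hσ, hR⟩ =>
    ⟨σ, hσ, cong_of_dvd (dvd_mul_left N M) hR⟩
  obtain ⟨s, hs, y, hy, rfl⟩ := hc a (h1 ha)
  have e : qq M (s + M • y) = qq M s + col y := by
    rw [map_add, qq_apply M (M • y), map_nsmul, ← Nat.cast_smul_eq_nsmul ℚ,
      inv_smul_smul₀ (Nat.cast_ne_zero.2 hM)]
  rw [e, cr_add]
  exact GS_per hτ AL_le hf ⟨y, hy, rfl⟩ (h0 _ (Finset.mem_image_of_mem _ hs))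

end M8.F
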