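import Pool.Agent.Lib.MP_33b3f9_ag.M8.F.An
import Pool.Agent.Lib.MP_33b3f9_ag.M8.F.Cj
import Pool.Agent.Lib.MP_33b3f9_ag.M8.F.Stb
import Pool.Agent.Lib.MP_33b3f9_ag.M4.F.Norm
import Pool.Agent.Lib.MP_33b3f9_ag.M4.F.MinA

/-!
One step of the extrapolation.
-/

set_option autoImplicit false

namespace M8.F

open Matrix Module M4 M4.F

variable {K : IntermediateField ℚ ℂ} {τ : Mat} {r : Rep K} {t : ℂ} {D : ℕ} {B : ℝ}

theorem step [Bs] (h : AV τ K r) (b : Base τ r t D B) : ∃ A C : ℕ, 0 < A ∧ 0 < C ∧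
    ∀ N : ℕ, N ≠ 0 → ∀ U : Subgroup (ℂ ≃ₐ[K] ℂ), U.FiniteIndex → ∀ n : ℕ, n ≠ 0 →
    ∀ S, Good r U N n S → ∀ σ ∈ U, ∀ R, Cong r σ (2 * n * N) R →
      n ^ 2 / A * (kk τ t (AL r U N) S - kk τ t (AL r U N) (ext S (qq (2 * n) R))) ≤
        C * (U.index * (2 + Nat.log 2 N)) * finrank ℂ (GS τ t (AL r U N)) := by
  have := h.fin
  have hB : 0 ≤ B := zero_le_one.trans b.b1
  have h8 : Fintype.card μ = 4 := by simp
  obtain ⟨A, hA, hm⟩ := minor_le h.inH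
  obtain ⟨e, he⟩ := house_le Bs.c ((D : ℝ) ^ 4 * B ^ 4) (by positivity)
  obtain ⟨q, hq⟩ : ∃ q : ℕ, q = 2 ^ 256 := ⟨_, rfl⟩
  refine ⟨A, e * (finrank ℚ K * q + 1) + 1, hA, Nat.succ_pos _,
    fun N hN U hU n hn S hS σ hσ R hR => ?_⟩
  obtain ⟨hf, hN'⟩ := GS_fin (t := t) h.inH (mul_ne_zero Bs.c0 hN) (zl_le_AL (r := r) (U := U))
  rcases le_total (kk τ t (AL r U N) S) (kk τ t (AL r U N) (ext S (qq (2 * n) R))) with h0 | h0
  · rw [Nat.sub_eq_zero_of_le h0, mul_zero]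
    exact Nat.zero_le _
  obtain ⟨p, hp⟩ : ∃ p, p + kk τ t (AL r U N) (ext S (qq (2 * n) R)) =
      finrank ℂ (GS τ t (AL r U N)) := ⟨_, Nat.sub_add_cancel (Submodule.finrank_mono inf_le_left)⟩
  obtain ⟨c, x', hc, hx, hd⟩ := @exists_minor _ _ (fun c : VQ μ => Tw τ t (cr c))
    (dual (AL r U N)) (cr '' ext S (qq (2 * n) R)) hf p hp
  choose x hx hx' using hx
  obtain rfl : x' = fun i => cr (x i) := (funext hx').symm
  obtain ⟨H, hHU, hH, hi, hs⟩ := exists_stab (r := r) (U := U) hN hn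
  have hX := he N _ p (by omega) hN'
  have hD : ∀ φ : ℂ ≃+* ℂ, ‖φ (((D : ℂ) ^ 4) ^ p)‖ = ((D : ℝ) ^ 4) ^ p := fun φ => by simp
  have e1 : ((D : ℝ) ^ 4) ^ p * ((p : ℝ) ^ 2 * B ^ 4) ^ p =
      ((p : ℝ) ^ 2 * ((D : ℝ) ^ 4 * B ^ 4)) ^ p := by
    rw [← mul_pow, mul_left_comm]
  have h1 : ¬ _ := fun hlt => hd (by
    have h2 := liouville H (α := σ⁻¹ (((D : ℂ) ^ 4) ^ p * minor τ t c x))
      ((minor_int b c x).map (σ⁻¹ : ℂ ≃ₐ[K] ℂ).toRingEquiv.toRingHom.toIntAlgHom)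
      (B := 2 ^ (e * (2 + Nat.log 2 N) * finrank ℂ (GS τ t (AL r U N))))
      (ε := 2 ^ (e * (2 + Nat.log 2 N) * finrank ℂ (GS τ t (AL r U N))) * (1 / 2) ^ (n ^ 2 / A *
        (kk τ t (AL r U N) S - kk τ t (AL r U N) (ext S (qq (2 * n) R)))))
      (one_le_pow₀ one_le_two) (fun φ => ?_) (fun σ' hσ' => ?_)
      (δ := finrank ℚ K * (q * U.index)) (Nat.mul_le_mul_left _ (hq ▸ hi)) hlt
    · rw [map_eq_zero, mul_eq_zero] at h2
      exact h2.resolve_left (pow_ne_zero _ (pow_ne_zero _ (Nat.cast_ne_zero.2 b.d0)))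
    · change ‖((σ⁻¹ : ℂ ≃ₐ[K] ℂ).toRingEquiv.trans φ) _‖ ≤ _
      rw [map_mul, norm_mul, hD]
      exact (mul_le_mul_of_nonneg_left (minor_conj b _ c x) (by positivity)).trans (e1 ▸ hX)
    · obtain ⟨c', x', hc', hx', h3⟩ := minor_move h b hN hn hS hσ (hHU hσ') hR (hs σ' hσ') hc hx
      have h4 := hm t (B ^ 4) (by positivity) (fun c x => (b.tw_bd c x).trans_eq (by rw [h8]))
        _ hf n hn S
        (fun x hx k => hS.inv x hx _ (zsmul_mem one_LL k)) p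
        (kk τ t (AL r U N) S - kk τ t (AL r U N) (ext S (qq (2 * n) R))) c' x' hc' hx' (by omega)
      have h5 := hD ((σ⁻¹ : ℂ ≃ₐ[K] ℂ).toRingEquiv.trans σ'.toRingEquiv)
      change ‖σ' (σ⁻¹ _)‖ = _ at h5
      rw [map_mul, map_mul, norm_mul, h3, h5]
      refine (mul_le_mul_of_nonneg_left h4 (by positivity)).trans ?_
      rw [← mul_assoc, e1]
      exact mul_le_mul_of_nonneg_right hX (by positivity))
  refine (step_num h1).trans ?_
  have h2 : finrank ℚ K * (q * U.index) + 1 ≤ (finrank ℚ K * q + 1) * U.index := by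
    have := Nat.pos_of_ne_zero hU.index_ne_zero
    rw [add_one_mul, mul_assoc]
    omega
  refine (Nat.mul_le_mul_left _ h2).trans (le_of_eq_of_le (b := e * (finrank ℚ K * q + 1) *
    (U.index * (2 + Nat.log 2 N)) * finrank ℂ (GS τ t (AL r U N))) (by ring) ?_)
  gcongr
  exact Nat.le_succ _

end M8.F
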